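import Mathlib
import Pool.Agent.T6.H46.UA.Upper

/-!
# No threshold for unique addresses for a certain quadrangle (MP_43eaec_an)

For the quadrangle with vertices `(0,0)`, `(8875,0)`, `(9996,4)`, `(0,10000)` (a triangle with one
corner cut off) the set of ratios `lam` for which some non-vertex point of the self-similar set has
exactly one address is not an initial segment: at `lam = 19/30` there is no such point, while at the
larger ratio `lam = 7/11` there is one. So no threshold `lam*` as in Q1 exists.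

The proof at `19/30` is a finite computation in exact integer arithmetic, evaluated by the kernel:
an inner region (the quadrangle minus 83 open sets given by linear inequalities) lies in the
self-similar set, and any word of length 32 starting with two different symbols contains a factor
whose cylinder is covered by the image of the inner region under a homothety with a
different first symbol.
-/

set_option autoImplicit false

open Filter Topology

namespace Pool.Agent.Results.MP_43eaec_an.ThresholdFails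

/-- The homothety `x ↦ lam x + (1 - lam) p i`. -/
noncomputable def homothety {d k : ℕ} (lam : ℝ) (p : Fin k → EuclideanSpace ℝ (Fin d)) (i : Fin k)
    (x : EuclideanSpace ℝ (Fin d)) : EuclideanSpace ℝ (Fin d) :=
  lam • x + (1 - lam) • p i

/-- `S` is nonempty, compact and the union of its images under the homotheties; for `lam` in
`(0,1)` there is exactly one such set, the self-similar set. -/
def IsSelfSimilarSet {d k : ℕ} (lam : ℝ) (p : Fin k → EuclideanSpace ℝ (Fin d))
    (S : Set (EuclideanSpace ℝ (Fin d))) : Prop :=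
  S.Nonempty ∧ IsCompact S ∧ S = ⋃ i, homothety lam p i '' S

/-- `e` is an address of `x`: `x` is the sum of `(1 - lam) lam ^ n p (e n)`, `n ≥ 0`. -/
def IsAddress {d k : ℕ} (lam : ℝ) (p : Fin k → EuclideanSpace ℝ (Fin d)) (e : ℕ → Fin k)
    (x : EuclideanSpace ℝ (Fin d)) : Prop :=
  HasSum (fun n : ℕ => (1 - lam) • lam ^ n • p (e n)) x

/-- `ls` has the two properties of Q1: above `ls` every non-vertex point of the self-similar set has
uncountably many addresses, below `ls` some non-vertex point has exactly one address. -/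
def IsThreshold {d k : ℕ} (p : Fin k → EuclideanSpace ℝ (Fin d)) (ls : ℝ) : Prop :=
  (∀ lam : ℝ, ls < lam → lam < 1 → ∀ S, IsSelfSimilarSet lam p S →
    ∀ x ∈ S, x ∉ Set.range p → ¬ {e : ℕ → Fin k | IsAddress lam p e x}.Countable) ∧
  (∀ lam : ℝ, 0 < lam → lam < ls → ∀ S, IsSelfSimilarSet lam p S →
    ∃ x ∈ S, x ∉ Set.range p ∧ ∃! e : ℕ → Fin k, IsAddress lam p e x)

theorem result : ∃ p : Fin 4 → EuclideanSpace ℝ (Fin 2),
    p = ![!₂[0, 0], !₂[8875, 0], !₂[9996, 4], !₂[0, 10000]] ∧
    ConvexIndependent ℝ p ∧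
    (∀ S, IsSelfSimilarSet (19 / 30) p S → ∀ x ∈ S, x ∉ Set.range p →
      ¬ ∃! e : ℕ → Fin 4, IsAddress (19 / 30) p e x) ∧
    (∀ S, IsSelfSimilarSet (7 / 11) p S → ∃ x ∈ S, x ∉ Set.range p ∧
      ∃! e : ℕ → Fin 4, IsAddress (7 / 11) p e x) ∧
    ¬ ∃ ls : ℝ, 0 < ls ∧ ls < 1 ∧ IsThreshold p ls := by
  have hlow : ∀ S, IsSelfSimilarSet (19 / 30) Pool.T6H46.UA.quad S → ∀ x ∈ S,
      x ∉ Set.range Pool.T6H46.UA.quad →
      ¬ ∃! e : ℕ → Fin 4, IsAddress (19 / 30) Pool.T6H46.UA.quad e x := by
    rintro S _ x _ hx ⟨e, he, hu⟩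
    exact hx (Pool.T6H46.UA.no_unique ⟨he, hu⟩)
  have hup : ∀ S, IsSelfSimilarSet (7 / 11) Pool.T6H46.UA.quad S →
      ∃ x ∈ S, x ∉ Set.range Pool.T6H46.UA.quad ∧
      ∃! e : ℕ → Fin 4, IsAddress (7 / 11) Pool.T6H46.UA.quad e x := by
    intro S hS
    obtain ⟨h1, e, he, hu⟩ := Pool.T6H46.UA.upper
    exact ⟨Pool.T6H46.UA.xx 0, (Pool.T6H46.UA.self_iff (by norm_num) (by norm_num)
      Pool.T6H46.UA.quad hS _).mpr ⟨e, he⟩, h1, e, he, hu⟩
  refine ⟨Pool.T6H46.UA.quad, rfl, Pool.T6H46.UA.quad_indep, hlow, hup, ?_⟩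
  rintro ⟨ls, h0, h1, hA, hB⟩
  have hle : ls ≤ 19 / 30 := by
    by_contra hc
    push Not at hc
    obtain ⟨x, hxS, hx, hu⟩ := hB (19 / 30) (by norm_num) hc _
      (Pool.T6H46.UA.self_exists (by norm_num) (by norm_num) Pool.T6H46.UA.quad 0)
    exact hlow _ (Pool.T6H46.UA.self_exists (by norm_num) (by norm_num) Pool.T6H46.UA.quad 0)
      x hxS hx hu
  have hS := Pool.T6H46.UA.self_exists (lam := 7 / 11) (by norm_num) (by norm_num)
    Pool.T6H46.UA.quad 0
  obtain ⟨x, hxS, hx, e, he, hu⟩ := hup _ hS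
  refine hA (7 / 11) (lt_of_le_of_lt hle (by norm_num)) (by norm_num) _ hS x hxS hx ?_
  have : {e : ℕ → Fin 4 | IsAddress (7 / 11) Pool.T6H46.UA.quad e x} = {e} := by
    ext e'
    constructor
    · intro h; exact hu e' h
    · intro h
      rw [Set.mem_singleton_iff] at h
      rw [h]; exact he
  rw [this]
  exact Set.countable_singleton e

end Pool.Agent.Results.MP_43eaec_an.ThresholdFails
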